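import Pool.Agent.H10.CC.Last

set_option autoImplicit false

/-!
# Which powers of a convex-cyclic operator are convex-cyclic

`ConvexCyclic T` (library definition): for some `x` the set `coOrb T x` of all finite convex
combinations of `x, T x, T² x, ...` is dense. `Powers S x E`: for every `n ≥ 1`, `S ^ n` is
convex-cyclic if and only if `n ∈ E`, and for every `n ∈ E`, `n ≥ 1`, the same vector `x` is
convex-cyclic for `S ^ n`.
-/

namespace Pool.Agent.Results.MP_8292e8_an.PrescribedPowers

open Pool.Agent.K7.H85.CC Pool.Agent.H10.CC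

universe u v

theorem result :
    -- (1) the full answer to Q1: every nonzero separable Banach space, complex or real
    (∀ (X : Type u) [NormedAddCommGroup X] [NormedSpace ℂ X] [CompleteSpace X]
      [TopologicalSpace.SeparableSpace X] [Nontrivial X],
      ∃ S : X →L[ℂ] X, ConvexCyclic S ∧ ¬ ConvexCyclic (S ^ 2)) ∧
    (∀ (X : Type u) [NormedAddCommGroup X] [NormedSpace ℝ X] [CompleteSpace X]
      [TopologicalSpace.SeparableSpace X] [Nontrivial X],
      ∃ S : X →L[ℝ] X, ConvexCyclic S ∧ ¬ ConvexCyclic (S ^ 2)) ∧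
    -- (2) complex separable spaces: prescribed powers, every finite set `Q` with `|Q| ≤ dim X`
    (∀ (X : Type u) [NormedAddCommGroup X] [NormedSpace ℂ X] [CompleteSpace X]
      [TopologicalSpace.SeparableSpace X] (Q : Finset ℕ), (∀ q ∈ Q, 2 ≤ q) →
      (Q.card : Cardinal) ≤ Module.rank ℂ X →
      ∃ (S : X →L[ℂ] X) (x : X), Powers S x {n | ∀ q ∈ Q, ¬ q ∣ n}) ∧
    -- (3) real separable infinite-dimensional spaces: every finite set `Q`
    (∀ (X : Type u) [NormedAddCommGroup X] [NormedSpace ℝ X] [CompleteSpace X]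
      [TopologicalSpace.SeparableSpace X], ¬ FiniteDimensional ℝ X →
      ∀ Q : Finset ℕ, (∀ q ∈ Q, 2 ≤ q) →
      ∃ (S : X →L[ℝ] X) (x : X), Powers S x {n | ∀ q ∈ Q, ¬ q ∣ n}) ∧
    -- (4) all nonzero real separable spaces: exactly the odd powers
    (∀ (X : Type u) [NormedAddCommGroup X] [NormedSpace ℝ X] [CompleteSpace X]
      [TopologicalSpace.SeparableSpace X] [Nontrivial X],
      ∃ (S : X →L[ℝ] X) (x : X), Powers S x {n | Odd n}) ∧
    -- (5) complex spaces with a Schauder basis: the sets of exponents are exactly the sets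
    -- containing `1` and closed under divisors
    (∀ (X : Type u) [NormedAddCommGroup X] [NormedSpace ℂ X] [CompleteSpace X]
      (e : ℕ → X) (φ : ℕ → X →L[ℂ] ℂ), IsBasis e φ → ∀ E : Set ℕ,
      (∃ (S : X →L[ℂ] X) (x : X), ConvexCyclic S ∧ Powers S x E) ↔
        (1 ∈ E ∧ ∀ n ∈ E, 1 ≤ n → ∀ d : ℕ, d ∣ n → d ∈ E)) ∧
    -- (6) closedness under divisors holds for every operator on every normed space
    (∀ (𝕜 : Type v) [RCLike 𝕜] (X : Type u) [NormedAddCommGroup X] [NormedSpace 𝕜 X]
      (S : X →L[𝕜] X) (d n : ℕ), d ∣ n → ConvexCyclic (S ^ n) → ConvexCyclic (S ^ d)) := by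
  refine ⟨?_, ?_, ?_, ?_, ?_, ?_, ?_⟩
  · intro X _ _ _ _ _
    obtain ⟨S, x, hS⟩ := complex_finite X {2} (by simp) (by
      rw [Finset.card_singleton, Nat.cast_one, Cardinal.one_le_iff_ne_zero]
      exact rank_pos.ne')
    refine ⟨S, ?_, fun h => ?_⟩
    · simpa using (hS 1 le_rfl).1.2 (by simp)
    · have := (hS 2 (by norm_num)).1.1 h
      simp at this
  · intro X _ _ _ _ _
    obtain ⟨S, x, hS⟩ := real_odd X
    refine ⟨S, ?_, fun h => ?_⟩
    · simpa using (hS 1 le_rfl).1.2 (by simp)
    · have := (hS 2 (by norm_num)).1.1 h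
      exact absurd (show Odd 2 from this) (by decide)
  · intro X _ _ _ _ Q hQ hc
    exact complex_finite X Q hQ hc
  · intro X _ _ _ _ h Q hQ
    exact real_finite X h Q hQ
  · intro X _ _ _ _ _
    exact real_odd X
  · intro X _ _ _ e φ hb E
    exact basis_iff e φ hb E
  · intro 𝕜 _ X _ _ S d n h hS
    exact divisors S d n h hS

end Pool.Agent.Results.MP_8292e8_an.PrescribedPowers
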